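import Pool.Agent.W285.UB.Stm

set_option autoImplicit false

namespace Pool.Agent.W452.UB

open Pool.Agent.W285.UB NumberField Height Module
open Pool.Agent.Helper259.AbsHt

/-- evaluation as a linear map -/
noncomputable def evl {K : Type} [Field K] [NumberField K] (ι : K →+* Qbar) {d : ℕ}
    (v : Fin 2 → Qbar) : (Fin (d + 1) → 𝓞 K) →ₗ[ℤ] Qbar where
  toFun f := fval (io ι) f v
  map_add' f g := by
    unfold fval
    rw [← Finset.sum_add_distrib]
    refine Finset.sum_congr rfl (fun i _ => ?_)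
    rw [Pi.add_apply, map_add]; ring
  map_smul' c f := by
    unfold fval
    rw [RingHom.id_apply, Finset.smul_sum]
    refine Finset.sum_congr rfl (fun i _ => ?_)
    rw [Pi.smul_apply, map_zsmul, smul_mul_assoc, smul_mul_assoc]

theorem evl_apply {K : Type} [Field K] [NumberField K] (ι : K →+* Qbar) {d : ℕ}
    (v : Fin 2 → Qbar) (f : Fin (d + 1) → 𝓞 K) : evl ι v f = fval (io ι) f v := rfl

theorem io_inj {K : Type} [Field K] [NumberField K] (ι : K →+* Qbar) :
    Function.Injective (io ι) := by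
  unfold io
  rw [RingHom.coe_comp]
  exact ι.injective.comp RingOfIntegers.coe_injective

theorem exists_idx {d : ℕ} (v : Fin 2 → Qbar) (hv : v ≠ 0) :
    ∃ i : Fin (d + 1), v 0 ^ (i : ℕ) * v 1 ^ (d - i) ≠ 0 := by
  by_cases h1 : v 1 = 0
  · have h0 : v 0 ≠ 0 := by
      intro h0
      apply hv
      funext i
      fin_cases i
      · exact h0
      · exact h1
    refine ⟨Fin.last d, ?_⟩
    simp [h0]
  · refine ⟨0, ?_⟩
    simp [h1]

theorem rank_le {K : Type} [Field K] [NumberField K] (ι : K →+* Qbar) {d : ℕ}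
    (v : Fin 2 → Qbar) (hv : v ≠ 0) :
    finrank ℤ (LinearMap.ker (evl ι (d := d) v)) ≤ finrank ℚ K * d := by
  obtain ⟨i0, hi0⟩ := exists_idx (d := d) v hv
  let Φ : (LinearMap.ker (evl ι (d := d) v)) × 𝓞 K →ₗ[ℤ] (Fin (d + 1) → 𝓞 K) :=
    (LinearMap.ker (evl ι (d := d) v)).subtype.coprod (LinearMap.single ℤ (fun _ => 𝓞 K) i0)
  have hinj : Function.Injective Φ := by
    rw [injective_iff_map_eq_zero]
    rintro ⟨g, z⟩ h
    have h1 : (g : Fin (d + 1) → 𝓞 K) + Pi.single i0 z = 0 := h
    have hg : evl ι v (g : Fin (d + 1) → 𝓞 K) = 0 := g.2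
    have h2 := congrArg (evl ι v) h1
    rw [map_add, hg, zero_add, map_zero, evl_apply] at h2
    unfold fval at h2
    rw [Finset.sum_eq_single i0] at h2
    · rw [Pi.single_eq_same, mul_assoc] at h2
      have h3 : io ι z = 0 := by
        rcases mul_eq_zero.1 h2 with h3 | h3
        · exact h3
        · exact absurd h3 hi0
      have h4 : z = 0 := by
        apply io_inj ι
        rw [h3, map_zero]
      subst h4
      rw [Pi.single_zero, add_zero] at h1
      exact Prod.ext (Subtype.ext h1) rfl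
    · intro b _ hb
      rw [Pi.single_eq_of_ne hb, map_zero]; ring
    · intro h; exact absurd (Finset.mem_univ _) h
  have h := LinearMap.finrank_le_finrank_of_injective hinj
  rw [Module.finrank_prod, Module.finrank_pi_fintype] at h
  simp only [Finset.sum_const, Finset.card_univ, Fintype.card_fin, smul_eq_mul] at h
  rw [RingOfIntegers.rank K] at h
  nlinarith

theorem modm : S_MODM := by
  intro K _ _ ι d H m hm v hv hyp t
  classical
  have : NeZero m := ⟨by omega⟩
  obtain ⟨M, hM⟩ : ∃ M, M = LinearMap.ker (evl ι (d := d) v) := ⟨_, rfl⟩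
  have hr : finrank ℤ M ≤ finrank ℚ K * d := by rw [hM]; exact rank_le ι v hv
  let b : Basis (Fin (finrank ℤ M)) ℤ M := Module.finBasis ℤ M
  obtain ⟨S, hS⟩ : ∃ S, S = ({f | (∀ i, f i ∈ ball K H) ∧ fval (io ι) f v = t} :
      Set (Fin (d + 1) → 𝓞 K)) := ⟨_, rfl⟩
  rw [← hS]
  rcases S.eq_empty_or_nonempty with he | ⟨f0, hf0⟩
  · rw [he, Set.ncard_empty]; exact Nat.zero_le _
  have hmem : ∀ f ∈ S, ∀ f' ∈ S, f - f' ∈ M := by
    intro f hf f' hf'
    rw [hS] at hf hf'
    rw [hM, LinearMap.mem_ker, map_sub, evl_apply, evl_apply, hf.2, hf'.2, sub_self]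
  have hmem' : ∀ f ∈ S, ∀ i, f i ∈ ball K H := by
    intro f hf
    rw [hS] at hf
    exact hf.1
  let F : (Fin (d + 1) → 𝓞 K) → (Fin (finrank ℤ M) → ZMod m) := fun f =>
    if h : f - f0 ∈ M then fun j => ((b.repr ⟨f - f0, h⟩ j : ℤ) : ZMod m) else 0
  have hF : ∀ f (hf : f ∈ S), F f = fun j => ((b.repr ⟨f - f0, hmem f hf f0 hf0⟩ j : ℤ) : ZMod m) := by
    intro f hf
    simp only [F]
    rw [dif_pos (hmem f hf f0 hf0)]
  have hinj : Set.InjOn F S := by
    intro f hf f' hf' h
    rw [hF f hf, hF f' hf'] at h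
    have hdvd : ∀ j, ∃ c : ℤ, b.repr ⟨f - f0, hmem f hf f0 hf0⟩ j -
        b.repr ⟨f' - f0, hmem f' hf' f0 hf0⟩ j = m * c := by
      intro j
      have h1 := congrFun h j
      have h2 : (m : ℤ) ∣ b.repr ⟨f - f0, hmem f hf f0 hf0⟩ j -
        b.repr ⟨f' - f0, hmem f' hf' f0 hf0⟩ j := by
        rw [← ZMod.intCast_zmod_eq_zero_iff_dvd]
        push_cast
        rw [h1, sub_self]
      exact h2
    choose c hc using hdvd
    let g : M := ∑ j, c j • b j
    have hg : (m : ℤ) • g = ⟨f - f0, hmem f hf f0 hf0⟩ - ⟨f' - f0, hmem f' hf' f0 hf0⟩ := by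
      apply b.repr.injective
      ext j
      rw [map_sub, Finsupp.sub_apply, hc j, map_smul, Finsupp.smul_apply]
      simp only [g]
      rw [map_sum, Finsupp.finsetSum_apply]
      rw [Finset.sum_eq_single j]
      · rw [map_smul, b.repr_self, Finsupp.smul_apply, Finsupp.single_eq_same]
        simp
      · intro k _ hk
        rw [map_smul, b.repr_self, Finsupp.smul_apply, Finsupp.single_apply, if_neg hk]
        simp
      · intro h; exact absurd (Finset.mem_univ _) h
    have hg2 : (m : ℤ) • (g : Fin (d + 1) → 𝓞 K) = f - f' := by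
      have h1 := congrArg (fun x : M => (x : Fin (d + 1) → 𝓞 K)) hg
      simp only [Submodule.coe_smul, AddSubgroupClass.coe_sub] at h1
      rw [h1]; abel
    have hg0 : (g : Fin (d + 1) → 𝓞 K) = 0 := by
      apply hyp
      · intro i j
        have h1 : (m : ℤ) • (g : Fin (d + 1) → 𝓞 K) i = f i - f' i := by
          have := congrFun hg2 i
          simpa using this
        have h2 := congrArg (fun z => (RingOfIntegers.basis K).repr z j) h1
        simp only [map_smul, map_sub, Finsupp.smul_apply, Finsupp.sub_apply, smul_eq_mul] at h2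
        have h3 := hmem' f hf i j
        have h4 := hmem' f' hf' i j
        have h5 : (m : ℤ) * |(RingOfIntegers.basis K).repr ((g : Fin (d + 1) → 𝓞 K) i) j| =
            |(m : ℤ) * (RingOfIntegers.basis K).repr ((g : Fin (d + 1) → 𝓞 K) i) j| := by
          rw [abs_mul, Nat.abs_cast]
        rw [h5, h2]
        have h6 := abs_sub ((RingOfIntegers.basis K).repr (f i) j)
          ((RingOfIntegers.basis K).repr (f' i) j)
        linarith
      · have h1 : ∀ x ∈ M, fval (io ι) x v = 0 := by
          intro x hx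
          rw [hM, LinearMap.mem_ker, evl_apply] at hx
          exact hx
        exact h1 _ g.2
    rw [hg0, smul_zero] at hg2
    exact (sub_eq_zero.1 hg2.symm)
  have h1 : S.ncard ≤ (Set.univ : Set (Fin (finrank ℤ M) → ZMod m)).ncard :=
    Set.ncard_le_ncard_of_injOn F (fun _ _ => Set.mem_univ _) hinj Set.finite_univ
  rw [Set.ncard_univ, Nat.card_eq_fintype_card, Fintype.card_fun, Fintype.card_fin, ZMod.card] at h1
  exact h1.trans (Nat.pow_le_pow_right hm hr)

end Pool.Agent.W452.UB
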